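import Pool.Agent.Helper30_Cube.Defs
import Pool.Agent.Helper30_Poly.Defs
import Mathlib.AlgebraicTopology.SimplicialComplex.Basic
import Mathlib.Analysis.InnerProductSpace.PiL2

/-!
# The hyperbolization of a simplicial complex

Let `T` be a simplicial complex.  Its cubical subdivision has the simplices of `T` as vertices and
the intervals `[τ, ρ]` of the poset of simplices as cubes.  Gromov's hyperbolization (with Moebius
bands) of this cubical complex is the following cube complex `hyp T`.  Its vertices are the
simplices `σ` of `T`.  For every cube `[τ, ρ]` of positive dimension that contains `σ` there is one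
edge at `σ`; its other end is the vertex of the cube that is antipodal to `σ`.  In terms of the
direction `D = ρ \ τ` of the cube, these are the simplices `D` such that `σ \ D` is nonempty and
`σ ∪ D` is a simplex, and the other end is the symmetric difference of `σ` and `D`.  The edges given
by `D` and `D'` span a square if `D ⊂ D'` or `D' ⊂ D`.  The vertex link of `hyp T` at `σ` is
the barycentric subdivision of the join of the boundary of `σ` and the link of `σ` in `T`.
-/

namespace Pool.Agent.Hyp

open Pool.Agent.Special Pool.Agent.Poly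
open Classical

noncomputable section

/-- The comparability graph of the simplices of `T`. -/
def simplexGraph {U : Type} (T : PreAbstractSimplicialComplex U) : SimpleGraph T.faces :=
  SimpleGraph.fromRel fun D D' => D.1 ⊆ D'.1

variable {U : Type} {T : PreAbstractSimplicialComplex U}

theorem simplexGraph_adj {D D' : T.faces} :
    (simplexGraph T).Adj D D' ↔ D.1 ≠ D'.1 ∧ (D.1 ⊆ D'.1 ∨ D'.1 ⊆ D.1) := by
  unfold simplexGraph
  rw [SimpleGraph.fromRel_adj]
  constructor
  · rintro ⟨h1, h2⟩
    exact ⟨fun h => h1 (Subtype.ext h), h2⟩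
  · rintro ⟨h1, h2⟩
    exact ⟨fun h => h1 (congrArg _ h), h2⟩

/-- The directions of the cubes of positive dimension at the vertex `σ` of the cubical subdivision
of `T`. -/
def dirs (T : PreAbstractSimplicialComplex U) (σ : T.faces) : Set T.faces :=
  {D | (σ.1 \ D.1).Nonempty ∧ σ.1 ∪ D.1 ∈ T.faces}

/-- The vertex that is antipodal to `σ` in the cube at `σ` with direction `D`. -/
def anti (T : PreAbstractSimplicialComplex U) (D σ : T.faces) : T.faces :=
  if h : symmDiff σ.1 D.1 ∈ T.faces then ⟨symmDiff σ.1 D.1, h⟩ else σ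

theorem symmDiff_mem {σ D : T.faces} (h : D ∈ dirs T σ) : symmDiff σ.1 D.1 ∈ T.faces := by
  obtain ⟨⟨x, hx⟩, h2⟩ := h
  refine (T.isRelLowerSet_faces h2).2 ?_ ⟨x, ?_⟩
  · intro y hy
    rw [Finset.mem_symmDiff] at hy
    rw [Finset.mem_union]
    tauto
  · rw [Finset.mem_sdiff] at hx
    rw [Finset.mem_symmDiff]
    exact Or.inl hx

theorem anti_val {σ D : T.faces} (h : D ∈ dirs T σ) : (anti T D σ).1 = symmDiff σ.1 D.1 := by
  unfold anti
  rw [dif_pos (symmDiff_mem h)]

theorem dirs_anti {σ D D' : T.faces} (h : D ∈ dirs T σ) (h' : D' ∈ dirs T σ)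
    (hle : D.1 ⊆ D'.1 ∨ D'.1 ⊆ D.1) : D' ∈ dirs T (anti T D σ) := by
  unfold dirs
  rw [Set.mem_ofPred_eq, anti_val h]
  obtain ⟨⟨x, hx⟩, h2⟩ := h
  obtain ⟨⟨x', hx'⟩, h2'⟩ := h'
  rw [Finset.mem_sdiff] at hx hx'
  rcases hle with hle | hle
  · refine ⟨⟨x', ?_⟩, ?_⟩
    · rw [Finset.mem_sdiff, Finset.mem_symmDiff]
      exact ⟨Or.inl ⟨hx'.1, fun h => hx'.2 (hle h)⟩, hx'.2⟩
    · have : symmDiff σ.1 D.1 ∪ D'.1 = σ.1 ∪ D'.1 := by
        ext y
        have := @hle y
        simp only [Finset.mem_union, Finset.mem_symmDiff]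
        tauto
      rw [this]
      exact h2'
  · refine ⟨⟨x, ?_⟩, ?_⟩
    · rw [Finset.mem_sdiff, Finset.mem_symmDiff]
      exact ⟨Or.inl hx, fun h => hx.2 (hle h)⟩
    · refine (T.isRelLowerSet_faces h2).2 ?_ ⟨x, ?_⟩
      · intro y hy
        have := @hle y
        simp only [Finset.mem_union, Finset.mem_symmDiff] at hy ⊢
        tauto
      · rw [Finset.mem_union, Finset.mem_symmDiff]
        exact Or.inl (Or.inl hx)

/-- The hyperbolization of the cubical subdivision of `T`. -/
def hyp (T : PreAbstractSimplicialComplex U) : CubeComplex (simplexGraph T) T.faces where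
  labels := dirs T
  move := anti T
  labels_move := by
    intro σ D h
    exact dirs_anti h h (Or.inl subset_rfl)
  move_move := by
    intro σ D h
    apply Subtype.ext
    rw [anti_val (dirs_anti h h (Or.inl subset_rfl)), anti_val h, symmDiff_assoc, symmDiff_self,
      symmDiff_bot]
  labels_square := by
    intro σ D D' h h' hadj
    exact dirs_anti h h' (simplexGraph_adj.mp hadj).2
  move_comm := by
    intro σ D D' h h' hadj
    have hle := (simplexGraph_adj.mp hadj).2
    apply Subtype.ext
    rw [anti_val (dirs_anti h' h hle.symm), anti_val h', anti_val (dirs_anti h h' hle), anti_val h,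
      symmDiff_assoc, symmDiff_assoc, symmDiff_comm D'.1 D.1]

/-- The simplices of the link of `σ` in `T`. -/
def LinkFace (T : PreAbstractSimplicialComplex U) (σ : Finset U) : Type :=
  {τ : Finset U // τ.Nonempty ∧ Disjoint σ τ ∧ σ ∪ τ ∈ T.faces}

/-- The link of `σ` in `T` is the boundary complex of a convex polytope of dimension `d`. -/
def PolytopalLink (T : PreAbstractSimplicialComplex U) (σ : Finset U) (d : ℕ) : Prop :=
  ∃ P : Set (EuclideanSpace ℝ (Fin d)),
    (∃ s : Finset (EuclideanSpace ℝ (Fin d)), P = convexHull ℝ (s : Set _)) ∧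
    (interior P).Nonempty ∧
    ∃ f : LinkFace T σ → ProperFace P, Function.Bijective f ∧
      ∀ τ τ', (f τ).1 ⊆ (f τ').1 ↔ τ.1 ⊆ τ'.1

end

end Pool.Agent.Hyp
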