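import Pool.Agent.Helper30_Poly.Polytope

/-!
# The cone over the free sum of a simplex and a polytope
-/

namespace Pool.Agent.Hyp

open Pool.Agent.Poly Pool.Agent.Davis Pool.Agent.Helper30L2
open Module

set_option linter.unusedSectionVars false

noncomputable section

section sum

variable {K E V : Type} [Fintype K] [Fintype E] [AddCommGroup V] [Module ℝ V]
  [FiniteDimensional ℝ V] {ℓ : E → Dual ℝ V}

/-- The difference of the sums of the functionals. -/
def dif (K : Type) [Fintype K] (ℓ : E → Dual ℝ V) : Dual ℝ ((K → ℝ) × V) where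
  toFun p := ∑ i, p.1 i - ∑ j, ℓ j p.2
  map_add' := by
    intro p q
    simp only [Prod.fst_add, Prod.snd_add, Pi.add_apply, map_add, Finset.sum_add_distrib]
    ring
  map_smul' := by
    intro c p
    simp only [Prod.smul_fst, Prod.smul_snd, Pi.smul_apply, map_smul, smul_eq_mul,
      RingHom.id_apply, ← Finset.mul_sum]
    ring

theorem dif_apply (p : (K → ℝ) × V) : dif K ℓ p = ∑ i, p.1 i - ∑ j, ℓ j p.2 := rfl

/-- The coordinates and the functionals `ℓ`. -/
def sm (K : Type) [Fintype K] (ℓ : E → Dual ℝ V) : K ⊕ E → Dual ℝ (LinearMap.ker (dif K ℓ))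
  | Sum.inl i => (LinearMap.proj (R := ℝ) (φ := fun _ : K => ℝ) i).comp
      ((LinearMap.fst ℝ (K → ℝ) V).comp (Submodule.subtype _))
  | Sum.inr j => (ℓ j).comp ((LinearMap.snd ℝ (K → ℝ) V).comp (Submodule.subtype _))

theorem sm_inl (i : K) (x : LinearMap.ker (dif K ℓ)) : sm K ℓ (Sum.inl i) x = x.1.1 i := rfl

theorem sm_inr (j : E) (x : LinearMap.ker (dif K ℓ)) : sm K ℓ (Sum.inr j) x = ℓ j x.1.2 := rfl

theorem sm_sum (x : LinearMap.ker (dif K ℓ)) : ∑ i, x.1.1 i = ∑ j, ℓ j x.1.2 := by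
  have h := x.2
  rw [LinearMap.mem_ker, dif_apply, sub_eq_zero] at h
  exact h

/-- The set given by the two parts. -/
def two (A : Set K) (B : Set E) : Set (K ⊕ E) := {z | (∃ i ∈ A, z = Sum.inl i) ∨ ∃ j ∈ B, z = Sum.inr j}

theorem mem_two_inl {A : Set K} {B : Set E} {i : K} : (Sum.inl i : K ⊕ E) ∈ two A B ↔ i ∈ A := by
  simp [two]

theorem mem_two_inr {A : Set K} {B : Set E} {j : E} : (Sum.inr j : K ⊕ E) ∈ two A B ↔ j ∈ B := by
  simp [two]

theorem two_subset {A A' : Set K} {B B' : Set E} : two A B ⊆ two A' B' ↔ A ⊆ A' ∧ B ⊆ B' := by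
  constructor
  · intro h
    refine ⟨fun i hi => ?_, fun j hj => ?_⟩
    · exact mem_two_inl.mp (h (mem_two_inl.mpr hi))
    · exact mem_two_inr.mp (h (mem_two_inr.mpr hj))
  · rintro ⟨h1, h2⟩ (i | j) hz
    · exact mem_two_inl.mpr (h1 (mem_two_inl.mp hz))
    · exact mem_two_inr.mpr (h2 (mem_two_inr.mp hz))

theorem zs_sm (x : LinearMap.ker (dif K ℓ)) :
    zs (sm K ℓ) x = two {i | x.1.1 i = 0} (zs ℓ x.1.2) := by
  ext (i | j)
  · rw [mem_two_inl, mem_zs, sm_inl]
    rfl
  · rw [mem_two_inr, mem_zs, sm_inr]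
    rfl

theorem sum_pos_of {w : V} (hw : Pos ℓ w) (h : zs ℓ w ≠ Set.univ) : 0 < ∑ j, ℓ j w := by
  have h1 : ∃ j, ℓ j w ≠ 0 := by
    by_contra hcon
    push Not at hcon
    exact h (Set.eq_univ_of_forall hcon)
  obtain ⟨j, hj⟩ := h1
  exact Finset.sum_pos' (fun i _ => hw i) ⟨j, Finset.mem_univ _, lt_of_le_of_ne (hw j) (Ne.symm hj)⟩

/-- Every pair of proper parts is realized. -/
theorem sm_real {A : Set K} (hA : A ≠ Set.univ) {w : V} (hw : Pos ℓ w) (h : zs ℓ w ≠ Set.univ) :
    ∃ x, Pos (sm K ℓ) x ∧ zs (sm K ℓ) x = two A (zs ℓ w) := by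
  classical
  have hpos := sum_pos_of hw h
  obtain ⟨i₀, hi₀⟩ : ∃ i, i ∉ A := by
    by_contra hcon
    push Not at hcon
    exact hA (Set.eq_univ_of_forall hcon)
  set m : ℕ := (Finset.univ.filter fun i : K => i ∉ A).card with hm
  have hm0 : 0 < m := Finset.card_pos.mpr ⟨i₀, by simp [hi₀]⟩
  have hm1 : (0 : ℝ) < m := by exact_mod_cast hm0
  set f : K → ℝ := fun i => if i ∈ A then 0 else (∑ j, ℓ j w) / m with hf
  have hsum : ∑ i, f i = ∑ j, ℓ j w := by
    rw [hf, Finset.sum_ite, Finset.sum_const_zero, zero_add, Finset.sum_const, nsmul_eq_mul, ← hm]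
    field_simp
  refine ⟨⟨(f, w), ?_⟩, ?_, ?_⟩
  · rw [LinearMap.mem_ker, dif_apply]
    exact sub_eq_zero.mpr hsum
  · rintro (i | j)
    · rw [sm_inl]
      change 0 ≤ f i
      rw [hf]
      dsimp only
      split_ifs
      · exact le_rfl
      · positivity
    · rw [sm_inr]
      exact hw j
  · rw [zs_sm]
    congr 1
    ext i
    change f i = 0 ↔ i ∈ A
    rw [hf]
    dsimp only
    split_ifs with hi
    · exact ⟨fun _ => hi, fun _ => rfl⟩
    · constructor
      · intro h0
        have : 0 < (∑ j, ℓ j w) / m := by positivity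
        exact absurd h0 this.ne'
      · intro h0
        exact absurd h0 hi

theorem sm_proper {x : LinearMap.ker (dif K ℓ)} (hx : Pos (sm K ℓ) x)
    (h : zs (sm K ℓ) x ≠ Set.univ) :
    {i | x.1.1 i = 0} ≠ Set.univ ∧ zs ℓ x.1.2 ≠ Set.univ := by
  have key : (∑ i, x.1.1 i = 0) → False := by
    intro h0
    apply h
    apply Set.eq_univ_of_forall
    have h1 : ∀ i, x.1.1 i = 0 := by
      intro i
      exact (Finset.sum_eq_zero_iff_of_nonneg (fun i _ => hx (Sum.inl i))).mp h0 i
        (Finset.mem_univ _)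
    have h2 : ∀ j, ℓ j x.1.2 = 0 := by
      intro j
      rw [sm_sum] at h0
      exact (Finset.sum_eq_zero_iff_of_nonneg (fun j _ => hx (Sum.inr j))).mp h0 j
        (Finset.mem_univ _)
    rintro (i | j)
    · exact h1 i
    · exact h2 j
  constructor
  · intro h1
    apply key
    apply Finset.sum_eq_zero
    intro i _
    have : i ∈ {i | x.1.1 i = 0} := by rw [h1]; trivial
    exact this
  · intro h1
    apply key
    rw [sm_sum]
    apply Finset.sum_eq_zero
    intro j _
    have : j ∈ zs ℓ x.1.2 := by rw [h1]; trivial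
    exact this

theorem sm_cone [Nonempty K] [Nonempty E] (hℓ : Cone ℓ) : Cone (sm K ℓ) := by
  constructor
  · intro x hx
    apply Subtype.ext
    apply Prod.ext
    · funext i
      exact hx (Sum.inl i)
    · exact hℓ.pointed _ fun j => hx (Sum.inr j)
  · obtain ⟨p, hp⟩ := hℓ.solid
    have h0 : zs ℓ p = ∅ := by
      ext j
      simp only [Set.mem_empty_iff_false, iff_false]
      exact (hp j).ne'
    have h1 : zs ℓ p ≠ Set.univ := by
      rw [h0]
      exact Set.empty_ne_univ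
    obtain ⟨x, hx1, hx2⟩ := sm_real (K := K) (A := ∅) Set.empty_ne_univ (fun i => (hp i).le) h1
    refine ⟨x, ?_⟩
    intro z
    refine lt_of_le_of_ne (hx1 z) ?_
    intro h2
    have h3 : z ∈ zs (sm K ℓ) x := h2.symm
    rw [hx2, h0] at h3
    rcases z with i | j
    · exact mem_two_inl.mp h3
    · exact mem_two_inr.mp h3

theorem finrank_sm [Nonempty K] {d : ℕ} (hd : finrank ℝ V = d + 1) :
    finrank ℝ (LinearMap.ker (dif K ℓ)) = Fintype.card K + d := by
  have h0 : dif K ℓ ≠ 0 := by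
    intro h
    have h1 : dif K ℓ (fun _ => 1, 0) = 0 := by rw [h]; rfl
    rw [dif_apply] at h1
    simp at h1
  have h1 := Module.Dual.finrank_ker_add_one_of_ne_zero h0
  rw [Module.finrank_prod, Module.finrank_fintype_fun_eq_card, hd] at h1
  omega

end sum

end

end Pool.Agent.Hyp
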