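import Pool.Agent.Helper30_Hyp.Defs
import Pool.Agent.Helper30_Hyp.Sum
import Pool.Agent.Helper30_Cube.Built

/-!
# The Singer conjecture for hyperbolizations of simplicial complexes with polytopal links
-/

namespace Pool.Agent.Hyp

open Pool.Agent.Special Pool.Agent.Poly Pool.Agent.Davis Pool.Agent.Helper30L2
open Module
open Classical

set_option linter.unusedSectionVars false

noncomputable section

variable {U : Type} {T : PreAbstractSimplicialComplex U}

section good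

variable {d : ℕ} {s : Finset (EuclideanSpace ℝ (Fin d))} {σ : T.faces}

/-- The vertices of the polytope in the face given by the simplex `τ`. -/
def zz (f : LinkFace T σ.1 → ProperFace (convexHull ℝ (s : Set (EuclideanSpace ℝ (Fin d)))))
    (τ : Finset U) : Set s :=
  {v | ∃ h : τ.Nonempty ∧ Disjoint σ.1 τ ∧ σ.1 ∪ τ ∈ T.faces, v ∈ vs s (f ⟨τ, h⟩).1}

variable {f : LinkFace T σ.1 → ProperFace (convexHull ℝ (s : Set (EuclideanSpace ℝ (Fin d))))}

theorem zz_of (τ : LinkFace T σ.1) : zz f τ.1 = vs s (f τ).1 := by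
  ext v
  constructor
  · rintro ⟨_, h⟩
    exact h
  · intro h
    exact ⟨τ.2, h⟩

theorem zz_empty : zz f ∅ = ∅ := by
  ext v
  constructor
  · rintro ⟨⟨h, _⟩, _⟩
    exact absurd h Finset.not_nonempty_empty
  · intro h
    exact absurd h (Set.notMem_empty _)

theorem zz_subset (hf : ∀ τ τ', (f τ).1 ⊆ (f τ').1 ↔ τ.1 ⊆ τ'.1) {τ τ' : Finset U}
    (h1 : Disjoint σ.1 τ ∧ σ.1 ∪ τ ∈ T.faces) (h2 : Disjoint σ.1 τ' ∧ σ.1 ∪ τ' ∈ T.faces) :
    zz f τ ⊆ zz f τ' ↔ τ ⊆ τ' := by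
  rcases τ.eq_empty_or_nonempty with rfl | hτ
  · rw [zz_empty]
    simp
  · have e1 : zz f τ = vs s (f ⟨τ, hτ, h1⟩).1 := zz_of (⟨τ, hτ, h1⟩ : LinkFace T σ.1)
    rcases τ'.eq_empty_or_nonempty with rfl | hτ'
    · rw [zz_empty, e1]
      constructor
      · intro h
        obtain ⟨v, hv⟩ := (vs_face (f ⟨τ, hτ, h1⟩)).2.1
        exact absurd (h hv) (Set.notMem_empty _)
      · intro h
        exact absurd (Finset.subset_empty.mp h) hτ.ne_empty
    · have e2 : zz f τ' = vs s (f ⟨τ', hτ', h2⟩).1 := zz_of (⟨τ', hτ', h2⟩ : LinkFace T σ.1)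
      rw [e1, e2, vs_le]
      exact hf _ _

theorem zz_ne_univ (hs : (interior (convexHull ℝ (s : Set (EuclideanSpace ℝ (Fin d))))).Nonempty)
    (τ : Finset U) : zz f τ ≠ Set.univ := by
  intro h
  by_cases h1 : τ.Nonempty ∧ Disjoint σ.1 τ ∧ σ.1 ∪ τ ∈ T.faces
  · rw [zz_of (⟨τ, h1⟩ : LinkFace T σ.1)] at h
    exact (vs_face (f ⟨τ, h1⟩)).2.2 h
  · have : zz f τ = ∅ := by
      ext v
      constructor
      · rintro ⟨h2, _⟩
        exact absurd h2 h1
      · intro h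
        exact absurd h (Set.notMem_empty _)
    rw [this] at h
    obtain ⟨x, hx⟩ := hs
    have hne : s.Nonempty := by
      by_contra hcon
      rw [Finset.not_nonempty_iff_eq_empty] at hcon
      subst hcon
      have := interior_subset hx
      simp at this
    obtain ⟨v, hv⟩ := hne
    have : (⟨v, hv⟩ : s) ∈ (∅ : Set s) := by rw [h]; trivial
    exact this

/-- Every set of vertices given by a simplex is the zero set of a point of the cone. -/
theorem zz_real (hs : (interior (convexHull ℝ (s : Set (EuclideanSpace ℝ (Fin d))))).Nonempty)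
    (τ : Finset U) : ∃ w, Pos (pf s) w ∧ zs (pf s) w = zz f τ := by
  by_cases h1 : τ.Nonempty ∧ Disjoint σ.1 τ ∧ σ.1 ∪ τ ∈ T.faces
  · rw [zz_of (⟨τ, h1⟩ : LinkFace T σ.1)]
    exact (vs_face (f ⟨τ, h1⟩)).1
  · have : zz f τ = ∅ := by
      ext v
      constructor
      · rintro ⟨h2, _⟩
        exact absurd h2 h1
      · intro h
        exact absurd h (Set.notMem_empty _)
    rw [this]
    obtain ⟨p, hp⟩ := (pf_cone hs).solid
    refine ⟨p, fun i => (hp i).le, ?_⟩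
    ext j
    simp only [Set.mem_empty_iff_false, iff_false]
    exact (hp j).ne'

/-- The part of the simplex `D` in `σ`. -/
def aa (σ : T.faces) (D : Finset U) : Set {x // x ∈ σ.1} := {i | (i : U) ∈ D}

theorem good_link (hs : (interior (convexHull ℝ (s : Set (EuclideanSpace ℝ (Fin d))))).Nonempty)
    (hf : ∀ τ τ', (f τ).1 ⊆ (f τ').1 ↔ τ.1 ⊆ τ'.1) (hbij : Function.Bijective f)
    {n : ℕ} (hn : d + σ.1.card = n + 1) :
    Good ((hyp T).labels σ) ((hyp T).link σ) n := by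
  have hne : Nonempty {x // x ∈ σ.1} := by
    obtain ⟨x, hx⟩ := (T.isRelLowerSet_faces σ.2).1
    exact ⟨⟨x, hx⟩⟩
  have hE : Nonempty s := by
    obtain ⟨x, hx⟩ := hs
    by_contra hcon
    have h0 : s = ∅ := by
      by_contra h1
      obtain ⟨v, hv⟩ := Finset.nonempty_iff_ne_empty.mpr h1
      exact hcon ⟨⟨v, hv⟩⟩
    subst h0
    have := interior_subset hx
    simp at this
  have hcone := sm_cone (K := {x // x ∈ σ.1}) (pf_cone hs)
  have hfr : finrank ℝ (LinearMap.ker (dif {x // x ∈ σ.1} (pf s))) = n + 1 := by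
    rw [finrank_sm (finrank_pf (E := EuclideanSpace ℝ (Fin d))), Fintype.card_coe,
      finrank_euclideanSpace_fin]
    omega
  have hgood := good_cone hcone hfr
  -- the parts of a direction
  have hpart : ∀ D : (hyp T).labels σ, Disjoint σ.1 (D.1.1 \ σ.1) ∧
      σ.1 ∪ (D.1.1 \ σ.1) ∈ T.faces := by
    rintro ⟨D, hD1, hD2⟩
    refine ⟨Finset.disjoint_sdiff, ?_⟩
    rw [Finset.union_sdiff_self_eq_union]
    exact hD2
  have haa : ∀ D : (hyp T).labels σ, aa σ D.1.1 ≠ Set.univ := by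
    rintro ⟨D, ⟨x, hx⟩, hD2⟩ h
    rw [Finset.mem_sdiff] at hx
    have : (⟨x, hx.1⟩ : {x // x ∈ σ.1}) ∈ aa σ D.1 := by rw [h]; trivial
    exact hx.2 this
  have hle : ∀ D D' : (hyp T).labels σ, D.1.1 ⊆ D'.1.1 ↔
      two (aa σ D.1.1) (zz f (D.1.1 \ σ.1)) ⊆ two (aa σ D'.1.1) (zz f (D'.1.1 \ σ.1)) := by
    intro D D'
    rw [two_subset, zz_subset hf (hpart D) (hpart D')]
    constructor
    · intro h
      exact ⟨fun i hi => h hi, Finset.sdiff_subset_sdiff h subset_rfl⟩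
    · rintro ⟨h1, h2⟩ x hx
      by_cases hxσ : x ∈ σ.1
      · exact h1 (a := ⟨x, hxσ⟩) hx
      · exact (Finset.mem_sdiff.mp (h2 (Finset.mem_sdiff.mpr ⟨hx, hxσ⟩))).1
  have hmem : ∀ D : (hyp T).labels σ,
      (∃ x : LinearMap.ker (dif {x // x ∈ σ.1} (pf s)), Pos (sm {x // x ∈ σ.1} (pf s)) x ∧
        zs (sm {x // x ∈ σ.1} (pf s)) x =
        two (aa σ D.1.1) (zz f (D.1.1 \ σ.1))) ∧
      (two (aa σ D.1.1) (zz f (D.1.1 \ σ.1))).Nonempty ∧
      two (aa σ D.1.1) (zz f (D.1.1 \ σ.1)) ≠ Set.univ := by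
    intro D
    refine ⟨?_, ?_, ?_⟩
    · obtain ⟨w, hw1, hw2⟩ := zz_real (f := f) hs (D.1.1 \ σ.1)
      obtain ⟨x, hx1, hx2⟩ := sm_real (K := {x // x ∈ σ.1}) (haa D) hw1
        (by rw [hw2]; exact zz_ne_univ hs _)
      exact ⟨x, hx1, by rw [hx2, hw2]⟩
    · obtain ⟨x, hx⟩ := (T.isRelLowerSet_faces D.1.2).1
      by_cases hxσ : x ∈ σ.1
      · exact ⟨Sum.inl ⟨x, hxσ⟩, mem_two_inl.mpr hx⟩
      · have hne' : (D.1.1 \ σ.1).Nonempty := ⟨x, Finset.mem_sdiff.mpr ⟨hx, hxσ⟩⟩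
        obtain ⟨v, hv⟩ := (vs_face (f ⟨D.1.1 \ σ.1, hne', hpart D⟩)).2.1
        refine ⟨Sum.inr v, mem_two_inr.mpr ?_⟩
        rw [zz_of (⟨D.1.1 \ σ.1, hne', hpart D⟩ : LinkFace T σ.1)]
        exact hv
    · intro h
      apply haa D
      apply Set.eq_univ_of_forall
      intro i
      exact mem_two_inl.mp (by rw [h]; trivial : (Sum.inl i : _ ⊕ s) ∈ two _ _)
  refine good_bij (fun D => Subtype.mk (two (aa σ D.1.1) (zz f (D.1.1 \ σ.1))) (hmem D))
    ⟨?_, ?_⟩ ?_ hgood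
  · intro D D' h
    have h1 := congrArg Subtype.val h
    apply Subtype.ext
    apply Subtype.ext
    exact Finset.Subset.antisymm ((hle D D').mpr h1.le) ((hle D' D).mpr h1.ge)
  · rintro ⟨Z, ⟨x, hx1, hx2⟩, hZ1, hZ2⟩
    obtain ⟨g1, g2⟩ := sm_proper hx1 (by rw [hx2]; exact hZ2)
    rw [zs_sm] at hx2
    -- the part outside of `σ`
    obtain ⟨τ, hτ1, hτ2⟩ : ∃ τ : Finset U, (Disjoint σ.1 τ ∧ σ.1 ∪ τ ∈ T.faces) ∧
        zz f τ = zs (pf s) x.1.2 := by
      rcases Set.eq_empty_or_nonempty (zs (pf s) x.1.2) with h0 | h0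
      · refine ⟨∅, ⟨Finset.disjoint_empty_right _, ?_⟩, ?_⟩
        · rw [Finset.union_empty]
          exact σ.2
        · rw [h0, zz_empty]
      · obtain ⟨F, hF⟩ := vs_lift (⟨zs (pf s) x.1.2, ⟨x.1.2, fun j => hx1 (Sum.inr j), rfl⟩,
          h0, g2⟩ : Fc (pf s))
        obtain ⟨τ, rfl⟩ := hbij.2 F
        exact ⟨τ.1, τ.2.2, by rw [zz_of, hF]⟩
    set A : Finset U := Finset.univ.filter (fun i : {x // x ∈ σ.1} => x.1.1 i = 0) |>.image
      Subtype.val with hA
    have hAmem : ∀ i : {x // x ∈ σ.1}, (i : U) ∈ A ↔ x.1.1 i = 0 := by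
      intro i
      rw [hA]
      simp
    have hAσ : A ⊆ σ.1 := by
      intro y hy
      rw [hA, Finset.mem_image] at hy
      obtain ⟨i, _, rfl⟩ := hy
      exact i.2
    have hdis : ∀ y ∈ τ, y ∉ σ.1 := fun y hy hyσ => Finset.disjoint_left.mp hτ1.1 hyσ hy
    have hsd : (A ∪ τ) \ σ.1 = τ := by
      ext y
      have h1 := @hAσ y
      have h2 := hdis y
      simp only [Finset.mem_sdiff, Finset.mem_union]
      tauto
    have hin : ∀ i : {x // x ∈ σ.1}, (i : U) ∈ A ∪ τ ↔ x.1.1 i = 0 := by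
      intro i
      rw [Finset.mem_union, hAmem]
      constructor
      · rintro (h | h)
        · exact h
        · exact absurd i.2 (hdis _ h)
      · exact Or.inl
    have hAne : (A ∪ τ).Nonempty := by
      obtain ⟨z, hz⟩ := hZ1
      rw [← hx2] at hz
      rcases z with i | j
      · have h1 : i ∈ {i | x.1.1 i = 0} := mem_two_inl.mp hz
        exact ⟨i, (hin i).mpr h1⟩
      · have h1 := mem_two_inr.mp hz
        rw [← hτ2] at h1
        obtain ⟨⟨⟨y, hy⟩, _⟩, _⟩ := h1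
        exact ⟨y, Finset.mem_union_right _ hy⟩
    have hAT : A ∪ τ ∈ T.faces :=
      (T.isRelLowerSet_faces hτ1.2).2 (Finset.union_subset_union hAσ subset_rfl) hAne
    have hdir : (⟨A ∪ τ, hAT⟩ : T.faces) ∈ dirs T σ := by
      refine ⟨?_, ?_⟩
      · obtain ⟨i, hi⟩ : ∃ i : {x // x ∈ σ.1}, x.1.1 i ≠ 0 := by
          by_contra hcon
          push Not at hcon
          exact g1 (Set.eq_univ_of_forall hcon)
        exact ⟨i, Finset.mem_sdiff.mpr ⟨i.2, fun h => hi ((hin i).mp h)⟩⟩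
      · change σ.1 ∪ (A ∪ τ) ∈ T.faces
        rw [← Finset.union_assoc, Finset.union_eq_left.mpr hAσ]
        exact hτ1.2
    refine ⟨⟨⟨A ∪ τ, hAT⟩, hdir⟩, ?_⟩
    apply Subtype.ext
    change two (aa σ (A ∪ τ)) (zz f ((A ∪ τ) \ σ.1)) = Z
    rw [hsd, hτ2, ← hx2]
    congr 1
    ext i
    exact hin i
  · intro D D'
    rw [fg_adj]
    change (simplexGraph T).Adj D.1 D'.1 ↔ _
    rw [simplexGraph_adj, hle D D', hle D' D]
    constructor
    · rintro ⟨h1, h2⟩
      refine ⟨fun h3 => h1 ?_, h2⟩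
      exact Finset.Subset.antisymm ((hle D D').mpr h3.le) ((hle D' D).mpr h3.ge)
    · rintro ⟨h1, h2⟩
      refine ⟨fun h3 => h1 ?_, h2⟩
      change two _ _ = two _ _
      rw [h3]

end good

/-- The links of the hyperbolization. -/
theorem good_hyp {σ : T.faces} {n d : ℕ} (hn : d + σ.1.card = n + 1)
    (h : PolytopalLink T σ.1 d) : Good ((hyp T).labels σ) ((hyp T).link σ) n := by
  obtain ⟨P, ⟨s, rfl⟩, hint, f, hbij, hf⟩ := h
  exact good_link hint hf hbij hn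

/-- The Singer conjecture for the hyperbolization of a simplicial complex with polytopal links. -/
theorem hyp_singer [Fintype T.faces] {n : ℕ}
    (h : ∀ σ ∈ T.faces, ∃ d, d + σ.card = n + 1 ∧ PolytopalLink T σ d) {i : ℕ} (hi : 2 * i ≠ n) :
    Special.HomologyVanishes (hyp T) i := by
  classical
  apply local_vanish
  intro σ
  rw [davis_vanishes_iff]
  obtain ⟨d, hd, hp⟩ := h σ.1 σ.2
  have hg := good_hyp hd hp
  have h1 : HS ((hyp T).link σ) n Finset.univ := hg.2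
  exact (singer_iff'.mpr h1.sing) i hi

end

end Pool.Agent.Hyp
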